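import Pool.Agent.Helper15.BB.St

/-! MODULE A of project BB: an adjacent pair of single letters. -/

set_option autoImplicit false

namespace Pool.Agent.Helper81.BB

open Pool.Agent.Helper22.FL Pool.Agent.Helper22.CS Pool.Agent.Helper15.BB

theorem sorted_split {m : ℕ} (s : Fin m) (l : List (Fin m)) (h : l.Pairwise (· ≤ ·)) :
    l = (l.filter fun u => decide (u < s)) ++ (l.filter fun u => decide (s ≤ u)) := by
  induction l with
  | nil => rfl
  | cons a l ih =>
    rw [List.pairwise_cons] at h
    by_cases ha : a < s
    · rw [List.filter_cons_of_pos (by simpa using ha),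
        List.filter_cons_of_neg (by simpa using ha), List.cons_append, ← ih h.2]
    · have ha' : s ≤ a := not_lt.1 ha
      have h1 : (a :: l).filter (fun u => decide (u < s)) = [] := by
        rw [List.filter_eq_nil_iff]
        intro u hu
        rcases List.mem_cons.1 hu with rfl | hu
        · simpa using ha'
        · have := h.1 u hu
          simpa using ha'.trans this
      have h2 : (a :: l).filter (fun u => decide (s ≤ u)) = a :: l := by
        rw [List.filter_eq_self]
        intro u hu
        rcases List.mem_cons.1 hu with rfl | hu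
        · simpa using ha'
        · have := h.1 u hu
          simpa using ha'.trans this
      rw [h1, h2, List.nil_append]

theorem sta (hI : StI) (hT : StT) : StA := by
  classical
  intro n m b i j k l s t hD hs ht hst hbet w hw hall
  obtain ⟨ps, hps, rfl⟩ := mem_blocks_iff.1 hw
  obtain ⟨hij, hik, hil, hjk, hjl, hkl⟩ := hD
  obtain ⟨hI1, hI2⟩ := hI (Fin n) (Mt i j k l) (Fr i j k l)
  apply hI2
  -- the word without the free letters
  set qs := ps.filter fun u => decide (¬ Fr i j k l (b u)) with hqs
  have e1 : (ps.map b).filter (fun c => decide (¬ Fr i j k l c)) = qs.map b := by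
    rw [List.filter_map]
    rfl
  have hcnt : ∀ c, ¬ Fr i j k l c → (qs.map b).count c = (ps.map b).count c := by
    intro c hc
    rw [← e1, List.count_filter]
    simpa using hc
  have hall' : ∀ c c', (ps.map b).count c = (ps.map b).count c' := fun c c' => hall c c'
  rw [e1]
  have hq : qs.Pairwise (· ≤ ·) := hps.filter _
  have hlet : ∀ u ∈ qs, b u = i ∨ b u = j ∨ b u = k ∨ b u = l := by
    intro u hu
    have h := (List.mem_filter.1 hu).2
    simp only [decide_eq_true_eq, Fr] at h
    tauto
  -- splitting
  set A := qs.filter fun u => decide (u < s) with hA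
  set R := qs.filter fun u => decide (s ≤ u) with hR
  have e2 : qs = A ++ R := sorted_split s qs hq
  have hRp : R.Pairwise (· ≤ ·) := hq.filter _
  set B := R.filter fun u => decide (¬ t < u) with hB
  set C := R.filter fun u => decide (t < u) with hC
  have e3 : R = B ++ C := by
    -- split at the successor of t
    have aux : ∀ L : List (Fin m), L.Pairwise (· ≤ ·) →
        L = (L.filter fun u => decide (¬ t < u)) ++ (L.filter fun u => decide (t < u)) := by
      intro L hL
      induction L with
      | nil => rfl
      | cons a L ih =>
        rw [List.pairwise_cons] at hL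
        by_cases ha : t < a
        · have h1 : (a :: L).filter (fun u => decide (¬ t < u)) = [] := by
            rw [List.filter_eq_nil_iff]
            intro u hu
            rcases List.mem_cons.1 hu with rfl | hu
            · simpa using ha
            · have := hL.1 u hu
              simpa using ha.trans_le this
          have h2 : (a :: L).filter (fun u => decide (t < u)) = a :: L := by
            rw [List.filter_eq_self]
            intro u hu
            rcases List.mem_cons.1 hu with rfl | hu
            · simpa using ha
            · have := hL.1 u hu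
              simpa using ha.trans_le this
          rw [h1, h2, List.nil_append]
        · rw [List.filter_cons_of_pos (by simpa using ha),
            List.filter_cons_of_neg (by simpa using ha), List.cons_append, ← ih hL.2]
    exact aux R hRp
  have hBl : ∀ c ∈ B.map b, c = i ∨ c = j := by
    intro c hc
    obtain ⟨u, hu, rfl⟩ := List.mem_map.1 hc
    have h1 := List.mem_filter.1 hu
    have h2 := List.mem_filter.1 h1.1
    have h3 : u ≤ t := by simpa using h1.2
    have h4 : s ≤ u := by simpa using h2.2
    rcases eq_or_lt_of_le h4 with h5 | h5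
    · exact Or.inl ((hs u).2 h5.symm)
    · rcases eq_or_lt_of_le h3 with h6 | h6
      · exact Or.inr ((ht u).2 h6)
      · obtain ⟨g1, g2⟩ := hbet u h5 h6
        rcases hlet u h2.1 with h | h | h | h
        · exact Or.inl h
        · exact Or.inr h
        · exact absurd h g1
        · exact absurd h g2
  have hACl : ∀ c ∈ (A ++ C).map b, c = k ∨ c = l := by
    intro c hc
    obtain ⟨u, hu, rfl⟩ := List.mem_map.1 hc
    have h1 : u ∈ qs ∧ u ≠ s ∧ u ≠ t := by
      rcases List.mem_append.1 hu with hu | hu
      · have h1 := List.mem_filter.1 hu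
        have h2 : u < s := by simpa using h1.2
        exact ⟨h1.1, h2.ne, (h2.trans hst).ne⟩
      · have h1 := List.mem_filter.1 hu
        have h2 : t < u := by simpa using h1.2
        exact ⟨(List.mem_filter.1 h1.1).1, (hst.trans h2).ne', h2.ne'⟩
    obtain ⟨h1, h2, h3⟩ := h1
    rcases hlet u h1 with h | h | h | h
    · exact absurd ((hs u).1 h) h2
    · exact absurd ((ht u).1 h) h3
    · exact Or.inl h
    · exact Or.inr h
  have ew : qs.map b = A.map b ++ B.map b ++ C.map b := by
    rw [e2, e3]
    simp only [List.map_append, List.append_assoc]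
  have hsum : ∀ c, (qs.map b).count c = ((A ++ C).map b).count c + (B.map b).count c := by
    intro c
    rw [ew]
    simp only [List.map_append, List.count_append]
    omega
  have hFi : ¬ Fr i j k l i := fun h => h.1 rfl
  have hFj : ¬ Fr i j k l j := fun h => h.2.1 rfl
  have hFk : ¬ Fr i j k l k := fun h => h.2.2.1 rfl
  have hFl : ¬ Fr i j k l l := fun h => h.2.2.2 rfl
  have hz1 : ∀ c, c ≠ k → c ≠ l → ((A ++ C).map b).count c = 0 := by
    intro c h1 h2
    rw [List.count_eq_zero]
    intro hc
    rcases hACl c hc with h | h
    · exact h1 h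
    · exact h2 h
  have hz2 : ∀ c, c ≠ i → c ≠ j → (B.map b).count c = 0 := by
    intro c h1 h2
    rw [List.count_eq_zero]
    intro hc
    rcases hBl c hc with h | h
    · exact h1 h
    · exact h2 h
  have r1 : RedF (Mt i j k l) (Fr i j k l) (B.map b) := by
    refine hT n _ _ i j hij (Or.inl ⟨rfl, rfl⟩) (Or.inr (Or.inl ⟨rfl, rfl⟩)) _ hBl ?_
    have h1 := hsum i
    have h2 := hsum j
    rw [hz1 i hik hil, zero_add, hcnt i hFi] at h1
    rw [hz1 j hjk hjl, zero_add, hcnt j hFj] at h2
    rw [← h1, ← h2]
    exact hall' i j
  have r2 : RedF (Mt i j k l) (Fr i j k l) ((A ++ C).map b) := by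
    refine hT n _ _ k l hkl (Or.inr (Or.inr (Or.inl ⟨rfl, rfl⟩)))
      (Or.inr (Or.inr (Or.inr ⟨rfl, rfl⟩))) _ hACl ?_
    have h1 := hsum k
    have h2 := hsum l
    rw [hz2 k (Ne.symm hik) (Ne.symm hjk), add_zero, hcnt k hFk] at h1
    rw [hz2 l (Ne.symm hil) (Ne.symm hjl), add_zero, hcnt l hFl] at h2
    rw [← h1, ← h2]
    exact hall' k l
  rw [ew]
  rw [List.map_append] at r2
  exact hI1 _ _ _ r2 r1

end Pool.Agent.Helper81.BB
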